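import Mathlib

/-!
# Cai-Fürer-Immerman graphs over cubic graphs without cycles of length four
-/

set_option autoImplicit false
set_option linter.unusedSectionVars false

namespace Pool.Agent.Y598.VT

open Finset

/-- A cubic graph with numbered ports. -/
structure Ports (U : Type) where
  nb : U → Fin 3 → U
  rv : Fin 3 → Fin 3
  nb_nb : ∀ v j, nb (nb v j) (rv j) = v
  rv_rv : ∀ j, rv (rv j) = j
  nb_inj : ∀ v j l, nb v j = nb v l → j = l
  nb_ne : ∀ v j, nb v j ≠ v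
  sq : ∀ v w j j' l l', v ≠ w → nb v j = nb w l → nb v j' = nb w l' → j = j'

variable {U : Type} (P : Ports U)

/-- The vertices. -/
abbrev Cv (U : Type) : Type := U × (ZMod 2 × ZMod 2)

/-- The values of a vertex at the ports of its node. -/
def val (b : U → ZMod 2) (x : Cv U) (j : Fin 3) : ZMod 2 :=
  if j = 0 then b x.1 + x.2.1 + x.2.2 else if j = 1 then x.2.1 else x.2.2

theorem val_zero (b : U → ZMod 2) (x : Cv U) : val b x 0 = b x.1 + x.2.1 + x.2.2 := rfl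
theorem val_one (b : U → ZMod 2) (x : Cv U) : val b x 1 = x.2.1 := rfl
theorem val_two (b : U → ZMod 2) (x : Cv U) : val b x 2 = x.2.2 := rfl

theorem val_sum (b : U → ZMod 2) (x : Cv U) : ∑ j, val b x j = b x.1 := by
  rw [Fin.sum_univ_three, val_zero, val_one, val_two]
  have h : ∀ a c d : ZMod 2, a + c + d + c + d = a := by decide
  exact h _ _ _

theorem eq_of_val {b : U → ZMod 2} {x y : Cv U} (h1 : x.1 = y.1) {j l : Fin 3} (hjl : j ≠ l)
    (hj : val b x j = val b y j) (hl : val b x l = val b y l) : x = y := by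
  obtain ⟨v, β1, β2⟩ := x
  obtain ⟨w, γ1, γ2⟩ := y
  obtain rfl : v = w := h1
  have key : ∀ (a β1 β2 γ1 γ2 : ZMod 2) (j l : Fin 3), j ≠ l →
      (if j = 0 then a + β1 + β2 else if j = 1 then β1 else β2) =
        (if j = 0 then a + γ1 + γ2 else if j = 1 then γ1 else γ2) →
      (if l = 0 then a + β1 + β2 else if l = 1 then β1 else β2) =
        (if l = 0 then a + γ1 + γ2 else if l = 1 then γ1 else γ2) → β1 = γ1 ∧ β2 = γ2 := by
    decide
  obtain ⟨h2, h3⟩ := key (b v) β1 β2 γ1 γ2 j l hjl hj hl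
  rw [h2, h3]

theorem exists_val (b : U → ZMod 2) (v : U) (j : Fin 3) (c : ZMod 2) :
    ∃ x y : Cv U, x ≠ y ∧ x.1 = v ∧ y.1 = v ∧ val b x j = c ∧ val b y j = c := by
  have key : ∀ (a c : ZMod 2) (j : Fin 3), ∃ β1 β2 γ1 γ2 : ZMod 2, (β1 ≠ γ1 ∨ β2 ≠ γ2) ∧
      (if j = 0 then a + β1 + β2 else if j = 1 then β1 else β2) = c ∧
      (if j = 0 then a + γ1 + γ2 else if j = 1 then γ1 else γ2) = c := by decide
  obtain ⟨β1, β2, γ1, γ2, h1, h2, h3⟩ := key (b v) c j
  refine ⟨(v, (β1, β2)), (v, (γ1, γ2)), ?_, rfl, rfl, h2, h3⟩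
  intro h
  have h4 := congrArg (fun q : Cv U => q.2) h
  rcases h1 with h1 | h1
  · exact h1 (congrArg Prod.fst h4)
  · exact h1 (congrArg Prod.snd h4)

theorem exists_same (b : U → ZMod 2) {x y : Cv U} (h1 : x.1 = y.1) :
    ∃ j, val b x j = val b y j := by
  obtain ⟨v, β1, β2⟩ := x
  obtain ⟨w, γ1, γ2⟩ := y
  obtain rfl : v = w := h1
  have key : ∀ (a β1 β2 γ1 γ2 : ZMod 2), ∃ j : Fin 3,
      (if j = 0 then a + β1 + β2 else if j = 1 then β1 else β2) =
        (if j = 0 then a + γ1 + γ2 else if j = 1 then γ1 else γ2) := by decide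
  exact key (b v) β1 β2 γ1 γ2

/-- The Cai-Fürer-Immerman graph with twists `b`. -/
def cfi (b : U → ZMod 2) : SimpleGraph (Cv U) where
  Adj x y := ∃ j, P.nb x.1 j = y.1 ∧ val b x j = val b y (P.rv j)
  symm := ⟨by
    rintro x y ⟨j, h1, h2⟩
    refine ⟨P.rv j, ?_, ?_⟩
    · rw [← h1, P.nb_nb]
    · rw [P.rv_rv]
      exact h2.symm⟩
  loopless := ⟨by
    rintro x ⟨j, h1, _⟩
    exact P.nb_ne _ _ h1⟩

theorem cfi_adj {b : U → ZMod 2} {x y : Cv U} :
    (cfi P b).Adj x y ↔ ∃ j, P.nb x.1 j = y.1 ∧ val b x j = val b y (P.rv j) := Iff.rfl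

theorem adj_iff {b : U → ZMod 2} {x y : Cv U} {j : Fin 3} (h : P.nb x.1 j = y.1) :
    (cfi P b).Adj x y ↔ val b x j = val b y (P.rv j) := by
  constructor
  · rintro ⟨l, h1, h2⟩
    have h3 := P.nb_inj _ _ _ (h1.trans h.symm)
    rwa [h3] at h2
  · exact fun h2 => ⟨j, h, h2⟩

/-- The fibres are determined by the graph. -/
theorem fibre_iff {b : U → ZMod 2} {x y : Cv U} :
    x.1 = y.1 ↔ ∃ z z', z ≠ z' ∧ (cfi P b).Adj x z ∧ (cfi P b).Adj x z' ∧ (cfi P b).Adj y z ∧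
      (cfi P b).Adj y z' := by
  constructor
  · intro h
    obtain ⟨j, hj⟩ := exists_same b h
    obtain ⟨z, z', hne, h1, h2, h3, h4⟩ := exists_val b (P.nb x.1 j) (P.rv j) (val b x j)
    refine ⟨z, z', hne, ⟨j, h1.symm, h3.symm⟩, ⟨j, h2.symm, h4.symm⟩, ⟨j, ?_, ?_⟩, ⟨j, ?_, ?_⟩⟩
    · rw [← h, h1]
    · rw [← hj, h3]
    · rw [← h, h2]
    · rw [← hj, h4]
  · rintro ⟨z, z', hne, ⟨j, a1, a2⟩, ⟨j', b1, b2⟩, ⟨l, c1, c2⟩, ⟨l', d1, d2⟩⟩
    by_contra hcon
    have e1 := P.sq x.1 y.1 j j' l l' hcon (a1.trans c1.symm) (b1.trans d1.symm)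
    have e2 := P.sq y.1 x.1 l l' j j' (Ne.symm hcon) (c1.trans a1.symm) (d1.trans b1.symm)
    subst e1 e2
    apply hne
    have hz : z.1 = z'.1 := a1.symm.trans b1
    refine eq_of_val (b := b) hz (j := P.rv j) (l := P.rv l) ?_ (a2.symm.trans b2)
      (c2.symm.trans d2)
    intro h
    apply hcon
    rw [← P.nb_nb x.1 j, a1, ← P.nb_nb y.1 l, c1, h]

variable {P} {b b' : U → ZMod 2}

theorem iso_fibre (φ : cfi P b ≃g cfi P b') (x y : Cv U) : (φ x).1 = (φ y).1 ↔ x.1 = y.1 := by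
  rw [fibre_iff P (b := b) (x := x) (y := y), fibre_iff P (b := b') (x := φ x) (y := φ y)]
  constructor
  · rintro ⟨z, z', h1, h2, h3, h4, h5⟩
    refine ⟨φ.symm z, φ.symm z', fun h => h1 (φ.symm.injective h), ?_, ?_, ?_, ?_⟩
    · rwa [← φ.map_adj_iff, RelIso.apply_symm_apply]
    · rwa [← φ.map_adj_iff, RelIso.apply_symm_apply]
    · rwa [← φ.map_adj_iff, RelIso.apply_symm_apply]
    · rwa [← φ.map_adj_iff, RelIso.apply_symm_apply]
  · rintro ⟨z, z', h1, h2, h3, h4, h5⟩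
    exact ⟨φ z, φ z', fun h => h1 (φ.injective h), φ.map_adj_iff.2 h2, φ.map_adj_iff.2 h3,
      φ.map_adj_iff.2 h4, φ.map_adj_iff.2 h5⟩

/-- **Isomorphic graphs have twists of the same parity.** -/
theorem parity [Fintype U] (φ : cfi P b ≃g cfi P b') : ∑ v, b v = ∑ v, b' v := by
  classical
  let π : U → U := fun v => (φ (v, 0)).1
  have hπ : ∀ x : Cv U, (φ x).1 = π x.1 := fun x => (iso_fibre φ x (x.1, 0)).2 rfl
  have hπinj : Function.Injective π := by
    intro v w h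
    exact (iso_fibre φ (v, 0) (w, 0)).1 h
  have hπbij : Function.Bijective π := Finite.injective_iff_bijective.1 hπinj
  have hp : ∀ (v : U) (j : Fin 3), ∃ p, P.nb (π v) p = π (P.nb v j) := by
    intro v j
    obtain ⟨z, _, _, h1, _, h3, _⟩ := exists_val b (P.nb v j) (P.rv j) (val b (v, 0) j)
    have h4 : (cfi P b).Adj (v, 0) z := ⟨j, h1.symm, h3.symm⟩
    obtain ⟨p, h5, _⟩ := φ.map_adj_iff.2 h4
    refine ⟨p, ?_⟩
    rw [hπ, hπ, h1] at h5
    exact h5
  choose p hp using hp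
  have hpinj : ∀ v, Function.Bijective (p v) := by
    intro v
    refine Finite.injective_iff_bijective.1 fun j l h => ?_
    have h1 := hp v j
    rw [h, hp v l] at h1
    exact (P.nb_inj _ _ _ (hπinj h1)).symm
  have hprv : ∀ v j, p (P.nb v j) (P.rv j) = P.rv (p v j) := by
    intro v j
    refine P.nb_inj (π (P.nb v j)) _ _ ?_
    rw [hp, P.nb_nb]
    conv_lhs => rw [← P.nb_nb (π v) (p v j)]
    rw [hp]
  let T : U × Fin 3 → ZMod 2 := fun h => val b' (φ (h.1, 0)) (p h.1 h.2) + val b (h.1, 0) h.2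
  have hTT : ∀ v j, T (v, j) = T (P.nb v j, P.rv j) := by
    intro v j
    have h1 : (cfi P b).Adj (v, 0) (P.nb v j, 0) ↔
        val b (v, 0) j = val b (P.nb v j, 0) (P.rv j) := adj_iff P rfl
    have h2 : (cfi P b').Adj (φ (v, 0)) (φ (P.nb v j, 0)) ↔
        val b' (φ (v, 0)) (p v j) = val b' (φ (P.nb v j, 0)) (P.rv (p v j)) :=
      adj_iff P (hp v j)
    rw [φ.map_adj_iff, h1, ← hprv] at h2
    have key : ∀ f g F G : ZMod 2, (g = G ↔ f = F) → f + g = F + G := by decide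
    exact key _ _ _ _ h2
  have hsumT : ∀ v, ∑ j, T (v, j) = b' (π v) + b v := by
    intro v
    show ∑ j, (val b' (φ (v, 0)) (p v j) + val b (v, 0) j) = _
    rw [Finset.sum_add_distrib, val_sum b (v, 0)]
    congr 1
    have h1 := Function.Bijective.sum_comp (hpinj v) fun j => val b' (φ (v, 0)) j
    rw [h1, val_sum]
  have hall : ∑ h : U × Fin 3, T h = 0 := by
    refine Finset.sum_involution (fun h _ => (P.nb h.1 h.2, P.rv h.2)) ?_ ?_ ?_ ?_
    · rintro ⟨v, j⟩ _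
      rw [hTT v j]
      exact CharTwo.add_self_eq_zero _
    · rintro ⟨v, j⟩ _ _ h
      exact P.nb_ne v j (congrArg Prod.fst h)
    · intro h _
      exact Finset.mem_univ _
    · rintro ⟨v, j⟩ _
      show (P.nb (P.nb v j) (P.rv j), P.rv (P.rv j)) = (v, j)
      rw [P.nb_nb, P.rv_rv]
  rw [Fintype.sum_prod_type] at hall
  simp only [hsumT] at hall
  rw [Finset.sum_add_distrib, Function.Bijective.sum_comp hπbij (fun v => b' v)] at hall
  have key : ∀ a c : ZMod 2, a + c = 0 → c = a := by decide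
  exact key _ _ hall

end Pool.Agent.Y598.VT
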