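import Pool.Agent.Y598.IM.Fam
import Pool.Agent.Y598.Circ.Game

/-!
# The Weisfeiler-Leman method on families with local isomorphisms
-/

set_option autoImplicit false
set_option linter.unusedSectionVars false

namespace Pool.Agent.Y598.IM

open Pool.Agent.TH658.Sos Finset Pool.Agent.W185.SRG
open Pool.Agent.TH658.Sos.Act (lvT lvT_congr lv_le_lvT)

namespace Fam

variable {X L V B : Type} [AddCommGroup X] [SemilatticeSup L] [OrderBot L] (F : Fam X L V B)
  [Fintype V]

/-- The positions of the game. -/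
def game (Gs : B → SimpleGraph V) (hG : ∀ b, F.G b = (Gs b).Adj) (b b' : B) (k : ℕ)
    (hK : F.c * (k + 1) ≤ F.K) : Circ.Game k (Gs b) (Gs b') where
  Good _ S S' := ∃ M ∈ F.Sol b b' (lvT F.lv S), S' = fun i => F.act M (S i)
  zero S S' := by
    obtain ⟨M, hM⟩ := F.bot_sol b b'
    exact ⟨M, hM, Subsingleton.elim _ _⟩
  ext n hn S S' := by
    rintro ⟨M, hM, rfl⟩
    have hex : ∀ W : L, ∃ M' : X, F.size W ≤ F.c →
        M' ∈ F.Sol b b' (lvT F.lv S ⊔ W) ∧ M' - M ∈ F.N (lvT F.lv S) := by
      intro W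
      by_cases hW : F.size W ≤ F.c
      · obtain ⟨M', hM', hN⟩ := F.extend b b' (lvT F.lv S) (lvT F.lv S ⊔ W) le_sup_left (by
          have h1 := F.size_sup (lvT F.lv S) W
          have h2 := F.size_lvT S
          have h3 : F.c * n ≤ F.c * k := Nat.mul_le_mul_left _ hn
          rw [mul_add, mul_one] at hK
          omega) M hM
        exact ⟨M', fun _ => ⟨hM', hN⟩⟩
      · exact ⟨0, fun h => absurd h hW⟩
    choose Mf hMf using hex
    refine ⟨⟨fun x => F.act (Mf (F.lv x)) x, fun x => F.act (-(Mf (F.lv x))) x, ?_, ?_⟩, ?_⟩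
    · intro x
      show F.act (-(Mf (F.lv (F.act (Mf (F.lv x)) x)))) (F.act (Mf (F.lv x)) x) = x
      rw [F.lv_act, F.act_neg_act]
    · intro x
      show F.act (Mf (F.lv (F.act (-(Mf (F.lv x))) x))) (F.act (-(Mf (F.lv x))) x) = x
      rw [F.lv_act, F.act_act_neg]
    · intro x
      obtain ⟨h1, h2⟩ := hMf (F.lv x) (F.size_lv x)
      refine ⟨Mf (F.lv x), F.Sol_anti _ _ _ _ ?_ h1, ?_⟩
      · refine Finset.sup_le fun i _ => ?_
        refine Fin.lastCases ?_ (fun i => ?_) i
        · rw [Fin.snoc_last]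
          exact le_sup_right
        · rw [Fin.snoc_castSucc]
          exact (lv_le_lvT S i).trans le_sup_left
      · funext i
        refine Fin.lastCases ?_ (fun i => ?_) i
        · rw [Fin.snoc_last, Fin.snoc_last]
          rfl
        · rw [Fin.snoc_castSucc, Fin.snoc_castSucc]
          exact (F.act_congr h2 (lv_le_lvT S i)).symm
  restr n m σ S S' := by
    rintro ⟨M, hM, rfl⟩
    refine ⟨M, F.Sol_anti _ _ _ _ ?_ hM, rfl⟩
    exact Finset.sup_le fun i _ => lv_le_lvT S (σ i)
  iso S S' := by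
    rintro ⟨M, hM, rfl⟩
    unfold isoType
    refine Prod.ext ?_ ?_
    · funext i j
      exact propext (F.act M).injective.eq_iff.symm
    · funext i j
      refine propext ?_
      have h1 := F.adj b b' (S i) (S j) M (F.Sol_anti _ _ _ _
        (sup_le (lv_le_lvT S i) (lv_le_lvT S j)) hM)
      rw [hG, hG] at h1
      exact h1

/-- The members of the family are not distinguished by the Weisfeiler-Leman method. -/
theorem wl (Gs : B → SimpleGraph V) (hG : ∀ b, F.G b = (Gs b).Adj) (b b' : B) (k : ℕ)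
    (hK : F.c * (k + 1) ≤ F.K) : WLEquivalent k (Gs b) (Gs b') :=
  (F.game Gs hG b b' k hK).wlEquivalent

end Fam

end Pool.Agent.Y598.IM
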