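import Mathlib

/-!
# Linear systems whose small cuts are small: local solutions
-/

set_option autoImplicit false
set_option linter.unusedSectionVars false

namespace Pool.Agent.Y598.VT

open Finset Module

variable {F E Q : Type} [Field F] [DecidableEq F] [Fintype E] [DecidableEq E]
  [Fintype Q] [DecidableEq Q]

/-- The support of a vector. -/
def supp (t : Q → F) : Finset Q := Finset.univ.filter fun v => t v ≠ 0

theorem mem_supp {t : Q → F} {v : Q} : v ∈ supp t ↔ t v ≠ 0 := by
  unfold supp
  rw [Finset.mem_filter]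
  exact ⟨fun h => h.2, fun h => ⟨Finset.mem_univ _, h⟩⟩

theorem supp_add (t t' : Q → F) : (supp (t + t')).card ≤ (supp t).card + (supp t').card := by
  refine le_trans (Finset.card_le_card ?_) (Finset.card_union_le _ _)
  intro s hs
  rw [mem_supp] at hs
  rw [Finset.mem_union, mem_supp, mem_supp]
  by_contra h
  push Not at h
  apply hs
  rw [Pi.add_apply, h.1, h.2, add_zero]

theorem supp_single (v : Q) (c : F) : (supp (Pi.single v c)).card ≤ 1 := by
  refine le_trans (Finset.card_le_card (t := {v}) ?_) (by simp)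
  intro s' hs'
  rw [mem_supp] at hs'
  rw [Finset.mem_singleton]
  by_contra hne
  exact hs' (Pi.single_eq_of_ne hne _)

/-- The combination of the rows of the matrix `A` with coefficients `t`. -/
def Zr (A : Q → E → F) (t : Q → F) (e : E) : F := ∑ v, t v * A v e

theorem Zr_add (A : Q → E → F) (t t' : Q → F) (e : E) :
    Zr A (t + t') e = Zr A t e + Zr A t' e := by
  unfold Zr
  rw [← Finset.sum_add_distrib]
  refine Finset.sum_congr rfl fun s _ => ?_
  rw [Pi.add_apply, add_mul]

theorem Zr_smul (A : Q → E → F) (l : F) (t : Q → F) (e : E) : Zr A (l • t) e = l * Zr A t e := by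
  unfold Zr
  rw [Finset.mul_sum]
  refine Finset.sum_congr rfl fun s _ => ?_
  rw [Pi.smul_apply, smul_eq_mul, mul_assoc]

theorem Zr_single (A : Q → E → F) (v : Q) (e : E) : Zr A (Pi.single v 1) e = A v e := by
  unfold Zr
  rw [Finset.sum_eq_single v]
  · rw [Pi.single_eq_same, one_mul]
  · intro s' _ hs'
    rw [Pi.single_eq_of_ne hs', zero_mul]
  · intro h'
    exact absurd (Finset.mem_univ v) h'

theorem sum_Zr (A : Q → E → F) (t : Q → F) (M : E → F) :
    ∑ v, t v * ∑ e, A v e * M e = ∑ e, Zr A t e * M e := by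
  unfold Zr
  simp only [Finset.mul_sum, Finset.sum_mul]
  rw [Finset.sum_comm]
  refine Finset.sum_congr rfl fun e _ => Finset.sum_congr rfl fun v _ => ?_
  ring

/-- There are no combinations of more than `n` and at most `2 n` equations which involve only few
variables, and no nontrivial relations between at most `n` equations. -/
structure LE (n K : ℕ) (A : Q → E → F) : Prop where
  small : ∀ (t : Q → F) (W : Finset E), (supp t).card ≤ 2 * n → W.card ≤ K →
    (∀ e, e ∉ W → Zr A t e = 0) → (supp t).card ≤ n
  zero : ∀ t : Q → F, (supp t).card ≤ n → (∀ e, Zr A t e = 0) → t = 0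

/-- The subspace of the combinations seen by `W`. -/
def Seen (n K : ℕ) (A : Q → E → F) (hE : LE n K A) (W : Finset E) (hW : W.card ≤ K) :
    Submodule F (Q → F) where
  carrier := {t | (supp t).card ≤ n ∧ ∀ e, e ∉ W → Zr A t e = 0}
  add_mem' := by
    rintro t t' ⟨h1, h2⟩ ⟨h1', h2'⟩
    have h3 : ∀ e, e ∉ W → Zr A (t + t') e = 0 := by
      intro e he
      rw [Zr_add, h2 e he, h2' e he, add_zero]
    refine ⟨hE.small _ W ?_ hW h3, h3⟩
    have h4 := supp_add t t'
    omega
  zero_mem' := by
    refine ⟨?_, ?_⟩
    · have : supp (0 : Q → F) = ∅ := by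
        ext s
        simp [mem_supp]
      rw [this]
      simp
    · intro e _
      unfold Zr
      refine Finset.sum_eq_zero fun s _ => ?_
      rw [Pi.zero_apply, zero_mul]
  smul_mem' := by
    rintro l t ⟨h1, h2⟩
    refine ⟨le_trans (Finset.card_le_card ?_) h1, ?_⟩
    · intro s hs
      rw [mem_supp] at hs ⊢
      intro h
      apply hs
      rw [Pi.smul_apply, h, smul_zero]
    · intro e he
      rw [Zr_smul, h2 e he, mul_zero]

/-- `M` satisfies the equations seen by `W`. -/
def Good (n : ℕ) (A : Q → E → F) (β : Q → F) (W : Finset E) (M : E → F) : Prop :=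
  ∀ t : Q → F, (supp t).card ≤ n → (∀ e, e ∉ W → Zr A t e = 0) →
    ∑ v, t v * (∑ e, A v e * M e - β v) = 0

theorem Good.mono {n : ℕ} {A : Q → E → F} {β : Q → F} {W W' : Finset E} (hWW : W ⊆ W')
    {M : E → F} (hM : Good n A β W' M) : Good n A β W M :=
  fun t h1 h2 => hM t h1 fun e he => h2 e fun h => he (hWW h)

theorem Good.add {n : ℕ} {A : Q → E → F} {β β' : Q → F} {W : Finset E} {M M' : E → F}
    (h : Good n A β W M) (h' : Good n A β' W M') : Good n A (β + β') W (M + M') := by
  intro t h1 h2
  have h3 : ∑ v, t v * (∑ e, A v e * (M + M') e - (β + β') v) =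
      ∑ v, t v * (∑ e, A v e * M e - β v) + ∑ v, t v * (∑ e, A v e * M' e - β' v) := by
    rw [← Finset.sum_add_distrib]
    refine Finset.sum_congr rfl fun s _ => ?_
    rw [Pi.add_apply]
    have : ∑ e, A s e * (M + M') e = ∑ e, A s e * M e + ∑ e, A s e * M' e := by
      rw [← Finset.sum_add_distrib]
      refine Finset.sum_congr rfl fun e _ => ?_
      rw [Pi.add_apply, mul_add]
    rw [this]
    ring
  rw [h3, h t h1 h2, h' t h1 h2, add_zero]

theorem Good.neg {n : ℕ} {A : Q → E → F} {β : Q → F} {W : Finset E} {M : E → F}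
    (h : Good n A β W M) : Good n A (-β) W (-M) := by
  intro t h1 h2
  have h3 : ∑ v, t v * (∑ e, A v e * (-M) e - (-β) v) =
      -∑ v, t v * (∑ e, A v e * M e - β v) := by
    rw [← Finset.sum_neg_distrib]
    refine Finset.sum_congr rfl fun s _ => ?_
    have : ∑ e, A s e * (-M) e = -∑ e, A s e * M e := by
      rw [← Finset.sum_neg_distrib]
      refine Finset.sum_congr rfl fun e _ => ?_
      rw [Pi.neg_apply, mul_neg]
    rw [this, Pi.neg_apply]
    ring
  rw [h3, h t h1 h2, neg_zero]

theorem good_zero {n : ℕ} {A : Q → E → F} (W : Finset E) : Good n A 0 W 0 := by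
  intro t _ _
  refine Finset.sum_eq_zero fun v _ => ?_
  simp

/-- Solvability of a finite system of linear equations. -/
theorem exists_solution {V U : Type} [AddCommGroup V] [Module F V] [AddCommGroup U]
    [Module F U] [FiniteDimensional F U]
    (B : V →ₗ[F] Dual F U) (η : Dual F V)
    (h : ∀ v, B v = 0 → η v = 0) : ∃ u, ∀ v, B v u = η v := by
  have h1 : η ∈ (LinearMap.ker B).dualAnnihilator := by
    rw [Submodule.mem_dualAnnihilator]
    intro v hv
    exact h v (LinearMap.mem_ker.1 hv)
  rw [← LinearMap.range_dualMap_eq_dualAnnihilator_ker] at h1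
  obtain ⟨ξ, hξ⟩ := h1
  refine ⟨(evalEquiv F U).symm ξ, fun v => ?_⟩
  rw [apply_evalEquiv_symm_apply, ← hξ]
  rfl

/-- The vectors which vanish on `W`. -/
def Van (F : Type) [Field F] (W : Finset E) : Submodule F (E → F) where
  carrier := {D | ∀ w ∈ W, D w = 0}
  add_mem' := by
    intro D D' h1 h2 w hw
    rw [Pi.add_apply, h1 w hw, h2 w hw, add_zero]
  zero_mem' := by
    intro w _
    rfl
  smul_mem' := by
    intro l D h1 w hw
    rw [Pi.smul_apply, h1 w hw, smul_zero]

/-- A subspace of combinations all of which are satisfied by `M` if they are seen by `W` is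
satisfied by a vector which agrees with `M` on `W`. -/
theorem extend_of {A : Q → E → F} {β : Q → F} (T : Submodule F (Q → F)) (W : Finset E)
    (M : E → F)
    (hM : ∀ t ∈ T, (∀ e, e ∉ W → Zr A t e = 0) → ∑ v, t v * (∑ e, A v e * M e - β v) = 0) :
    ∃ M' : E → F, (∀ t ∈ T, ∑ v, t v * (∑ e, A v e * M' e - β v) = 0) ∧
      ∀ w ∈ W, M' w = M w := by
  let B : T →ₗ[F] Dual F (Van F W) :=
    { toFun := fun t =>
        { toFun := fun D => ∑ v, t.1 v * ∑ e, A v e * D.1 e
          map_add' := by
            intro D D'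
            rw [← Finset.sum_add_distrib]
            refine Finset.sum_congr rfl fun s _ => ?_
            rw [← mul_add, ← Finset.sum_add_distrib]
            congr 1
            refine Finset.sum_congr rfl fun e _ => ?_
            rw [Submodule.coe_add, Pi.add_apply, mul_add]
          map_smul' := by
            intro l D
            rw [RingHom.id_apply, smul_eq_mul, Finset.mul_sum]
            refine Finset.sum_congr rfl fun s _ => ?_
            rw [Finset.mul_sum, Finset.mul_sum, Finset.mul_sum]
            refine Finset.sum_congr rfl fun e _ => ?_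
            rw [Submodule.coe_smul, Pi.smul_apply, smul_eq_mul]
            ring }
      map_add' := by
        intro t t'
        refine LinearMap.ext fun D => ?_
        show ∑ v, (t.1 v + t'.1 v) * _ = ∑ v, t.1 v * _ + ∑ v, t'.1 v * _
        rw [← Finset.sum_add_distrib]
        exact Finset.sum_congr rfl fun s _ => add_mul _ _ _
      map_smul' := by
        intro l t
        refine LinearMap.ext fun D => ?_
        show ∑ v, (l * t.1 v) * _ = l * ∑ v, t.1 v * _
        rw [Finset.mul_sum]
        exact Finset.sum_congr rfl fun s _ => mul_assoc _ _ _ }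
  let η : Dual F T :=
    { toFun := fun t => ∑ v, t.1 v * (∑ e, A v e * M e - β v)
      map_add' := by
        intro t t'
        rw [← Finset.sum_add_distrib]
        exact Finset.sum_congr rfl fun s _ => add_mul _ _ _
      map_smul' := by
        intro l t
        rw [RingHom.id_apply, smul_eq_mul, Finset.mul_sum]
        exact Finset.sum_congr rfl fun s _ => mul_assoc _ _ _ }
  obtain ⟨D, hD⟩ := exists_solution B η (by
    intro t ht
    refine hM t.1 t.2 ?_
    intro e he
    let D : Van F W := ⟨Pi.single e 1, by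
      intro w hw
      have : w ≠ e := fun h => he (h ▸ hw)
      exact Pi.single_eq_of_ne this _⟩
    have h1 : B t D = 0 := by
      rw [ht]
      rfl
    have h2 : B t D = Zr A t.1 e := by
      show ∑ v, t.1 v * ∑ e', A v e' * (Pi.single e (1 : F) : E → F) e' = _
      rw [sum_Zr, Finset.sum_eq_single e]
      · rw [Pi.single_eq_same, mul_one]
      · intro e' _ he'
        rw [Pi.single_eq_of_ne he', mul_zero]
      · intro h'
        exact absurd (Finset.mem_univ e) h'
    rw [← h2, h1])
  refine ⟨M - D.1, ?_, ?_⟩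
  · intro t ht
    have h3 := hD ⟨t, ht⟩
    have h4 : ∑ v, t v * ∑ e, A v e * D.1 e = ∑ v, t v * (∑ e, A v e * M e - β v) := h3
    have h5 : ∑ v, t v * (∑ e, A v e * (M - D.1) e - β v) =
        ∑ v, t v * (∑ e, A v e * M e - β v) - ∑ v, t v * ∑ e, A v e * D.1 e := by
      rw [← Finset.sum_sub_distrib]
      refine Finset.sum_congr rfl fun s _ => ?_
      have : ∑ e, A s e * (M - D.1) e = ∑ e, A s e * M e - ∑ e, A s e * D.1 e := by
        rw [← Finset.sum_sub_distrib]
        refine Finset.sum_congr rfl fun e _ => ?_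
        rw [Pi.sub_apply, mul_sub]
      rw [this]
      ring
    rw [h5, h4, sub_self]
  · intro w hw
    rw [Pi.sub_apply, D.2 w hw, sub_zero]

/-- Local solutions extend. -/
theorem Good.extend {n K : ℕ} {A : Q → E → F} (hE : LE n K A) {β : Q → F} {W W' : Finset E}
    (hW' : W'.card ≤ K) {M : E → F} (hM : Good n A β W M) :
    ∃ M' : E → F, Good n A β W' M' ∧ ∀ w ∈ W, M' w = M w := by
  obtain ⟨M', h1, h2⟩ := extend_of (A := A) (β := β) (Seen n K A hE W' hW') W M
    (fun t ht h => hM t ht.1 h)
  exact ⟨M', fun t ht ht' => h1 t ⟨ht, ht'⟩, h2⟩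

theorem good_empty {n K : ℕ} {A : Q → E → F} (hE : LE n K A) (β : Q → F) (M : E → F) :
    Good n A β ∅ M := by
  intro t h1 h2
  rw [hE.zero t h1 fun e => h2 e (Finset.notMem_empty e)]
  refine Finset.sum_eq_zero fun s _ => ?_
  rw [Pi.zero_apply, zero_mul]

end Pool.Agent.Y598.VT
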